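import Pool.Agent.Q120.SM.AsmP
import Pool.Agent.Q257.BH.Wset
import Pool.Agent.Q211.SM.SEP
import Pool.Agent.Q31.SM.GAP
import Pool.Agent.Q223.SM.SUM
import Pool.Agent.Q65.SM.D1
import Pool.Agent.Q210.SM.D2
import Pool.Agent.Q210.SM.PU
import Pool.Agent.Q150.SM.PL

/-!
# The multifractal spectrum of the gaps between prime values of polynomials, in random models

`A` contains the integers `n` coprime to `Q` independently with probabilities `(Q/φ(Q)) / log n` (Cramér's model for
`Q = 1`). For all systems `P` of `k` polynomials with nonzero singular series `S_Q(P)` at once: the set of the `α ∈ [1,2]`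
such that `(α x_n, α x_n + c L(x_n)]`, `L(x) = (∏ deg P_i / S_Q(P)) log^(k+1) x`, contains no integer `m` with all `P_i(m)`
in `A`, for infinitely many `n`, has Hausdorff dimension exactly `1 - c`.
-/

set_option autoImplicit false

open MeasureTheory Filter Topology Set Pool.Agent.Q120.GM Pool.Agent.Q120.SM Polynomial
open scoped ENNReal

namespace Pool.Agent.Results.MP_8923e7_nt.GapSpectrumAllSystems

/-- **The multifractal spectrum of the gaps, for all systems of polynomials.** -/
theorem result :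
    ∀ Q : ℕ, 1 ≤ Q →
      (∃ (Ω : Type) (_ : MeasurableSpace Ω) (μ : Measure Ω) (A : Ω → Set ℕ), IsProbabilityMeasure μ ∧
        IsModel μ (level Q) A) ∧
      ∀ (Ω : Type) [MeasurableSpace Ω] (μ : Measure Ω) [IsProbabilityMeasure μ] (A : Ω → Set ℕ),
        IsModel μ (level Q) A → ∀ x : ℕ → ℝ, Scales x → ∀ᵐ ω ∂μ, ∀ (k : ℕ) (P : Fin k → ℤ[X]), Sys k P →
        0 < SQ Q k P → ∀ c : ℝ, 0 ≤ c →
          dimH (GOften (A ω) Q P x c) = ENNReal.ofReal (1 - c) ∧
          (1 < c → GOften (A ω) Q P x c = ∅) ∧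
          (Tendsto (fun n => Real.log (x (n + 1)) / Real.log (x n)) atTop atTop →
            dimH (GAlways (A ω) Q P x c) = ENNReal.ofReal (1 - c)) := by
  intro Q hQ
  refine ⟨⟨ℕ → Bool, inferInstance, prodMeasure (level Q), trueSet, inferInstance,
      isModel _ (level_nonneg Q) (level_le_one Q)⟩, ?_⟩
  intro Ω _ μ _ A hA x hx
  have hc : Countable ℤ[X] := Pool.Agent.Q257.BH.countable_poly
  rw [ae_all_iff]
  intro k
  rw [ae_all_iff]
  intro P
  by_cases h : Sys k P ∧ 0 < SQ Q k P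
  · filter_upwards [ae_goodP Pool.Agent.Q210.SM.t_PU Pool.Agent.Q150.SM.t_PL Pool.Agent.Q211.SM.t_SEP (Pool.Agent.Q31.SM.GAP.t_GAP Pool.Agent.Q223.SM.t_SUM) hQ hA hx h.1 h.2] with ω hG hP hS c hc0
    exact spectrumP Pool.Agent.Q65.SM.t_D1 Pool.Agent.Q210.SM.t_D2 hx hP hS hG c hc0
  · exact ae_of_all _ fun ω h1 h2 => absurd ⟨h1, h2⟩ h

end Pool.Agent.Results.MP_8923e7_nt.GapSpectrumAllSystems
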