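import Pool.Agent.Q253.Thin.AP

/-!
# Progressions of translates of every admissible tuple with two members prime up to one common prime factor

For every `k` there is one set `Q` of primes, with `O(log x)` elements up to `x`, such that for every `l`, for all
large `x`, uniformly in the admissible tuples `(a_1, ..., a_k)` with `|a_i| ≤ x`, in every window: there are `l` integers
`n` in a narrow arithmetic progression such that all `n` and all `n + a_j` are prime and no `n + a_i` has a small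
prime factor; or the same with `(n + a_j) / q` in place of `n + a_j`, for one and the same `q ∈ Q`.

Libraries: `Y840.CT.GenF` (Chen's theorem for systems of shifts in windows), `Y843.HS.Top` (Szemerédi's theorem
relative to arbitrary sifted sets, with narrow progressions), `Y151.HS.FLC` (fundamental lemma in residue
classes), all starting files.
-/

set_option autoImplicit false

namespace Pool.Agent.Results.MP_8923e7_nt.ProgressionsSameFactor

open Finset Filter
open Pool.Agent.Y840.CT Pool.Agent.Q253.Thin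

/-- For every prime `p` the set `{0, a_1, ..., a_k}` does not contain all residue classes modulo `p`. -/
def Admissible {k : ℕ} (a : Fin k → ℤ) : Prop :=
  ∀ p : ℕ, p.Prime → ∃ n : ℤ, ¬ (p : ℤ) ∣ n ∧ ∀ i, ¬ (p : ℤ) ∣ n + a i

/-- `n` is a prime in `(u, v]`, and all prime factors of all `n + a_i` are larger than `y`. -/
def Sifted {k : ℕ} (a : Fin k → ℤ) (y : ℝ) (u v n : ℕ) : Prop :=
  u < n ∧ n ≤ v ∧ n.Prime ∧ ∀ i : Fin k, ∀ p : ℕ, p.Prime → (p : ℤ) ∣ n + a i → y < p

/-- the negative shifts -/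
def sh {k : ℕ} (a : Fin k → ℤ) : Fin k → ℤ := fun i => -a i

lemma rho_lt {k : ℕ} {a : Fin k → ℤ} (ha : Admissible a) {q : ℕ} (hq : q.Prime) :
    rho (univ.image (sh a)) q < q := by
  classical
  obtain ⟨n, hn0, hn⟩ := ha q hq
  have hq0 : (0 : ℤ) < q := by exact_mod_cast hq.pos
  unfold rho
  have hsub : (insert 0 (univ.image (sh a))).image (fun h : ℤ => h % q) ⊆
      ((range q).image (fun c : ℕ => (c : ℤ))).erase (n % q) := by
    intro z hz
    rw [mem_image] at hz
    obtain ⟨h, hh, rfl⟩ := hz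
    rw [mem_erase]
    constructor
    · intro he
      have h1 : (q : ℤ) ∣ n - h := Int.ModEq.dvd he
      rcases mem_insert.1 hh with h2 | h2
      · apply hn0
        rw [h2, sub_zero] at h1
        exact h1
      · rw [mem_image] at h2
        obtain ⟨i, _, rfl⟩ := h2
        apply hn i
        unfold sh at h1
        rwa [sub_neg_eq_add] at h1
    · rw [mem_image]
      refine ⟨(h % q).toNat, ?_, ?_⟩
      · rw [mem_range]
        have h1 := Int.emod_lt_of_pos h hq0
        have h2 := Int.emod_nonneg h hq0.ne'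
        omega
      · exact Int.toNat_of_nonneg (Int.emod_nonneg h hq0.ne')
  have hmem : n % q ∈ (range q).image (fun c : ℕ => (c : ℤ)) := by
    rw [mem_image]
    refine ⟨(n % q).toNat, ?_, ?_⟩
    · rw [mem_range]
      have h1 := Int.emod_lt_of_pos n hq0
      have h2 := Int.emod_nonneg n hq0.ne'
      omega
    · exact Int.toNat_of_nonneg (Int.emod_nonneg n hq0.ne')
  refine lt_of_le_of_lt (card_le_card hsub) ?_
  rw [card_erase_of_mem hmem, card_image_of_injective _ Nat.cast_injective, card_range]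
  have := hq.pos
  omega

/-- For every `k ≥ 1` there are `t ≥ 1`, a set `Q` of primes and `C > 0` such that `Q` has at most `C log x` elements up to
`x`, for all `x ≥ 2`, and for all `l` and `θ > 0` there are `D` and `x₀` such that the following holds for all `x ≥ x₀`, ALL
admissible tuples `(a_1, ..., a_k)` of integers with `|a_i| ≤ x`, all `j` with `a_j ≠ 0` and all `0 ≤ u < v ≤ x`
with `v - u ≥ θ x`. At least one of the following is true:

(1) there are `n` and `1 ≤ b ≤ log ^ D x` such that for all `0 ≤ m < l` the integer `n + m b` is a prime in `(u, v]`,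
`|n + m b + a_j|` is prime and no `n + m b + a_i` has a prime factor `≤ x ^ (1/t)`;

(2) there are `q ∈ Q` with `q > x ^ (1/9)`, `q ^ 2 ≤ x + |a_j|`, and `n` and `1 ≤ d ≤ log ^ D x` such that, with `b = q d`,
for all `0 ≤ m < l` the integer `n + m b` is a prime in `(u, v]`, `|n + m b + a_j| / q` is a prime `≥ q`, and no
`n + m b + a_i` has a prime factor `≤ x ^ (1/t)`. -/
theorem result (k : ℕ) (hk : 1 ≤ k) : ∃ (t : ℕ) (Q : Set ℕ) (C : ℝ), 1 ≤ t ∧ 0 < C ∧ (∀ q ∈ Q, q.Prime) ∧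
    (∀ x : ℕ, 2 ≤ x → ((Q ∩ Set.Iic x).ncard : ℝ) ≤ C * Real.log x) ∧
    ∀ (l : ℕ) (θ : ℝ), 0 < θ → ∃ D x₀ : ℕ, ∀ x : ℕ, x₀ ≤ x → ∀ a : Fin k → ℤ, Admissible a → (∀ i, |a i| ≤ x) →
      ∀ j : Fin k, a j ≠ 0 → ∀ u v : ℕ, v ≤ x → θ * x ≤ (v : ℝ) - u →
        (∃ n b : ℕ, 1 ≤ b ∧ (b : ℝ) ≤ Real.log x ^ D ∧ ∀ m < l,
          Sifted a ((x : ℝ) ^ (1 / (t : ℝ))) u v (n + m * b) ∧ (((n + m * b : ℕ) : ℤ) + a j).natAbs.Prime) ∨
        ∃ q ∈ Q, (x : ℝ) ^ (1 / 9 : ℝ) < q ∧ (q : ℤ) ^ 2 ≤ x + |a j| ∧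
          ∃ n d : ℕ, 1 ≤ d ∧ (d : ℝ) ≤ Real.log x ^ D ∧ ∀ m < l,
            Sifted a ((x : ℝ) ^ (1 / (t : ℝ))) u v (n + m * (q * d)) ∧
            ∃ q' : ℕ, q'.Prime ∧ q ≤ q' ∧ (((n + m * (q * d) : ℕ) : ℤ) + a j).natAbs = q * q' := by
  classical
  obtain ⟨t, ht, c, hc, ρ, hρ, hd⟩ := dich k
  obtain ⟨C, hC, Q, hQp, hQc, hmain⟩ := thin hk hρ hd
  obtain ⟨cV, hcV, hV⟩ := VF_low k
  refine ⟨t, Q, C, ht, hC, hQp, ?_, ?_⟩
  · intro x hx
    obtain ⟨S, hS, hSc⟩ := hQc x hx
    have h1 : (Q ∩ Set.Iic x).ncard ≤ S.card := by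
      rw [← Set.ncard_coe_finset]
      apply Set.ncard_le_ncard
      · rintro q ⟨hq, hqx⟩
        exact hS q hq hqx
      · exact finite_toSet S
    have h2 : ((Q ∩ Set.Iic x).ncard : ℝ) ≤ S.card := by exact_mod_cast h1
    exact h2.trans hSc
  intro l θ hθ
  obtain ⟨X₀, hX₀⟩ := hmain θ hθ
  obtain ⟨D, X₁, hX₁⟩ := apClass l k t ht c θ hc hθ
  refine ⟨D, max (max X₀ X₁) 2, ?_⟩
  intro x hx a ha hax j haj u v hv huv
  have n1 : X₀ ≤ x := le_trans (le_trans (le_max_left _ _) (le_max_left _ _)) hx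
  have n2 : X₁ ≤ x := le_trans (le_trans (le_max_right _ _) (le_max_left _ _)) hx
  have n3 : 2 ≤ x := (le_max_right _ _).trans hx
  have hx0 : (0 : ℝ) < x := by exact_mod_cast (by omega : 0 < x)
  have huv0 : (0 : ℝ) < (v : ℝ) - u := lt_of_lt_of_le (by positivity) huv
  have hadm : Adm k (sh a) j := ⟨by unfold sh; exact neg_ne_zero.2 haj, fun q hq => rho_lt ha hq⟩
  have hax' : ∀ i, |sh a i| ≤ x := fun i => by
    unfold sh
    rw [abs_neg]
    exact hax i
  have hsys := hadm.sys (hax' j)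
  have hVp : 0 < VF (FT (sh a)) x := by
    refine lt_of_lt_of_le ?_ (hV x n3 (FT (sh a)) hsys.card hsys.loc)
    have : 0 < Real.log x := Real.log_pos (by exact_mod_cast (by omega : 1 < x))
    positivity
  have habs : ∀ (i : Fin k) (p : ℕ), (sh a i - (p : ℤ)).natAbs = ((p : ℤ) + a i).natAbs := by
    intro i p
    have : sh a i - (p : ℤ) = -((p : ℤ) + a i) := by
      unfold sh
      ring
    rw [this, Int.natAbs_neg]
  have hgood : ∀ p ∈ GoodF t x u v (FT (sh a)) (sh a j), Sifted a ((x : ℝ) ^ (1 / (t : ℝ))) u v p ∧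
      ∀ q : ℕ, q.Prime → q ∣ ((p : ℤ) + a j).natAbs → (x : ℝ) ^ (1 / 9 : ℝ) < q := by
    intro p hp
    unfold GoodF at hp
    rw [mem_filter, mem_Ioc] at hp
    obtain ⟨⟨p1, p2⟩, pp, pt, ⟨pr1, pr2, pr3⟩, pF⟩ := hp
    refine ⟨⟨p1, p2, pp, ?_⟩, ?_⟩
    · intro i q hq hd
      by_contra hcon
      push Not at hcon
      apply pF q hq hcon (sh a i)
      · unfold FT
        exact mem_image_of_mem _ (mem_univ i)
      · have : sh a i - (p : ℤ) = -((p : ℤ) + a i) := by
          unfold sh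
          ring
        rw [this]
        exact (dvd_neg).2 hd
    · intro q hq hd
      apply pr3 q hq
      rw [Int.natCast_dvd, habs]
      exact hd
  rcases hX₀ x n1 (sh a) hax' j hsys u v hv huv with h | ⟨q, hq, h⟩
  · left
    obtain ⟨n, b, hb1, hb2, hab⟩ := hX₁ x n2 (FT (sh a)) (sh a j) hsys u v hv huv 1 (by omega) (Or.inl rfl)
      (PF t x u v (FT (sh a)) (sh a j)) (filter_subset _ _) ⟨0, fun p _ => Nat.mod_one p⟩ (by
        rw [Nat.cast_one, div_one]
        exact h)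
    refine ⟨n, b, hb1, hb2, ?_⟩
    intro m hm
    have h1 := hab m hm
    rw [one_mul] at h1
    unfold PF at h1
    rw [mem_filter, habs] at h1
    exact ⟨(hgood _ h1.1).1, h1.2⟩
  · right
    have hqp := hQp q hq
    have hq0 : (0 : ℝ) < q := by exact_mod_cast hqp.pos
    have hRF : ∀ p ∈ RF t x u v (FT (sh a)) (sh a j) q, Sifted a ((x : ℝ) ^ (1 / (t : ℝ))) u v p ∧
        (∃ q' : ℕ, q'.Prime ∧ q ≤ q' ∧ ((p : ℤ) + a j).natAbs = q * q') ∧ (x : ℝ) ^ (1 / 9 : ℝ) < q := by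
      intro p hp
      unfold RF at hp
      rw [mem_filter] at hp
      obtain ⟨hp1, q', hq', hqq', hpq⟩ := hp
      rw [habs] at hpq
      obtain ⟨a1, a2⟩ := hgood p hp1
      exact ⟨a1, ⟨q', hq', hqq', hpq⟩, a2 q hqp (by rw [hpq]; exact Dvd.intro _ rfl)⟩
    have hlow : 0 < c * (((v : ℝ) - u) * VF (FT (sh a)) x / q) := by positivity
    have hne : (RF t x u v (FT (sh a)) (sh a j) q).Nonempty := by
      rw [← card_pos]
      exact_mod_cast lt_of_lt_of_le hlow h
    obtain ⟨p0, hp0⟩ := hne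
    obtain ⟨b1, ⟨q', b4, b5, b6⟩, b7⟩ := hRF p0 hp0
    have hq2 : (q : ℤ) ^ 2 ≤ x + |a j| := by
      have h1 : q ^ 2 ≤ ((p0 : ℤ) + a j).natAbs := by
        rw [b6, pow_two]
        exact Nat.mul_le_mul_left _ b5
      have h2 : ((((p0 : ℤ) + a j).natAbs : ℕ) : ℤ) = |(p0 : ℤ) + a j| := Int.natCast_natAbs _
      have h3 : |(p0 : ℤ) + a j| ≤ |(p0 : ℤ)| + |a j| := abs_add_le _ _
      have h4 : |(p0 : ℤ)| = p0 := abs_of_nonneg (by positivity)
      have h5 : (p0 : ℤ) ≤ x := by exact_mod_cast b1.2.1.trans hv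
      have h6 : ((q ^ 2 : ℕ) : ℤ) ≤ (((p0 : ℤ) + a j).natAbs : ℕ) := by exact_mod_cast h1
      push_cast at h6
      rw [← Int.natCast_natAbs] at h3
      rw [← Int.natCast_natAbs] at h6 ⊢
      omega
    have hq2X : q ^ 2 ≤ 2 * x := by
      have h1 := hax j
      have h2 : (q : ℤ) ^ 2 ≤ 2 * x := by linarith
      exact_mod_cast h2
    obtain ⟨n, d, hd1, hd2, had⟩ := hX₁ x n2 (FT (sh a)) (sh a j) hsys u v hv huv q hq2X (Or.inr ⟨hqp, b7⟩)
      (RF t x u v (FT (sh a)) (sh a j) q) (filter_subset _ _) ⟨p0 % q, fun p hp => by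
        obtain ⟨_, ⟨q'', _, _, c6⟩, _⟩ := hRF p hp
        have h1 : (q : ℤ) ∣ (p : ℤ) + a j := by
          rw [Int.natCast_dvd, c6]
          exact Dvd.intro _ rfl
        have h2 : (q : ℤ) ∣ (p0 : ℤ) + a j := by
          rw [Int.natCast_dvd, b6]
          exact Dvd.intro _ rfl
        have h3 : (q : ℤ) ∣ (p0 : ℤ) - p := by
          have := dvd_sub h2 h1
          rwa [add_sub_add_right_eq_sub] at this
        exact (Nat.modEq_iff_dvd).2 h3⟩ h
    refine ⟨q, hq, b7, hq2, n, d, hd1, hd2, ?_⟩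
    intro m hm
    obtain ⟨a1, a2, _⟩ := hRF _ (had m hm)
    exact ⟨a1, a2⟩

end Pool.Agent.Results.MP_8923e7_nt.ProgressionsSameFactor
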