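import Pool.Agent.Q138.GS.UniE

/-!
# Prime tuples with almost all real dilations, uniformly in the shifts

For almost every `(α_1, ..., α_r)`, `α_i > 0`, the number of `n ≤ N` for which the `r + 1` numbers `n + a_0` and
`⌊α_i (n + a_i) + β_i⌋` are all prime is `N / (log N) ^ (r + 1) * (1 + O (1 / log N))`, uniformly for all integers
`a_0, ..., a_r` with `|a_i| ≤ (log N) ^ B`, for every `B`. In weighted form the error is smaller than every power of
`log N`, the factor `n + a_0` may be replaced by arbitrary weights and `α_i (n + a_i)` by `α_i x_i (n + a_i)`, where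
`x_i` is a polynomial or a power.
-/

set_option autoImplicit false

open Finset Filter Topology MeasureTheory
open scoped Classical

namespace Pool.Agent.Results.MP_8923e7_nt.UniformRealTuples

/-- `log m` if `m` is a prime number and zero otherwise -/
noncomputable def theta (m : ℕ) : ℝ := if m.Prime then Real.log m else 0

/-- the sequence of the values of a nonconstant real polynomial with positive leading coefficient, or the
sequence `n ^ c` for a real `c > 0` -/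
def Good (x : ℕ → ℝ) : Prop :=
  (∃ P : Polynomial ℝ, 1 ≤ P.natDegree ∧ 0 < P.leadingCoeff ∧ ∀ n : ℕ, x n = P.eval (n : ℝ)) ∨
    ∃ c : ℝ, 0 < c ∧ ∀ n : ℕ, x n = (n : ℝ) ^ c

/-- the number of elements `n` of `S` with `1 ≤ n ≤ N` -/
noncomputable def count (S : Set ℕ) (N : ℕ) : ℝ := ((Icc 1 N).filter (fun n => n ∈ S)).card

/-- the set of all `n` such that the integer `n + a₀` and all the integer parts of `α_i (n + a_i) + β_i` are
prime numbers -/
def tuples {r : ℕ} (α β : Fin r → ℝ) (a₀ : ℤ) (a : Fin r → ℤ) : Set ℕ :=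
  {n : ℕ | ((n : ℤ) + a₀).toNat.Prime ∧ ∀ i, (⌊α i * ((n : ℝ) + a i) + β i⌋₊).Prime}

theorem Good.sm {x : ℕ → ℝ} (h : Good x) : ∃ c : ℝ, Pool.Agent.Q138.GS.Sm c x := by
  rcases h with ⟨P, h1, h2, h3⟩ | ⟨c, h1, h2⟩
  · have e : x = fun n : ℕ => P.eval (n : ℝ) := funext h3
    rw [e]
    exact ⟨_, Pool.Agent.Q138.GS.sm_pol h1 h2⟩
  · have e : x = fun n : ℕ => (n : ℝ) ^ c := funext h2
    rw [e]
    exact ⟨_, Pool.Agent.Q138.GS.sm_rpow h1⟩

theorem theta_eq (n : ℕ) : ((theta n : ℝ) : ℂ) = Pool.Agent.Q138.GS.th n := Pool.Agent.Q138.GS.tr_eq n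

theorem result :
    -- the number of prime tuples
    (∀ (k : ℕ) (β : Fin (k + 1) → ℝ), ∀ᵐ α : Fin (k + 1) → ℝ, (∀ i, 0 < α i) →
      ∀ B : ℕ, ∃ C : ℝ, ∀ᶠ N : ℕ in atTop, ∀ (a₀ : ℤ) (a : Fin (k + 1) → ℤ),
        |(a₀ : ℝ)| ≤ (Real.log N) ^ B → (∀ i, |(a i : ℝ)| ≤ (Real.log N) ^ B) →
          |count (tuples α β a₀ a) N * (Real.log N) ^ (k + 2) / N - 1| ≤ C / Real.log N) ∧
    -- arbitrary weights, polynomials and powers
    (∀ (k : ℕ) (x : Fin (k + 1) → ℕ → ℝ) (β : Fin (k + 1) → ℝ), (∀ i, Good (x i)) →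
      ∀ (g : ℕ → ℂ) (C : ℝ) (B : ℕ), (∀ n : ℕ, 1 ≤ n → ‖g n‖ ≤ C * (Real.log (n + 3)) ^ B) →
      ∀ᵐ α : Fin (k + 1) → ℝ, (∀ i, 0 < α i) →
        ∀ B K : ℕ, ∀ᶠ N : ℕ in atTop, ∀ (a₀ : ℕ) (a : Fin (k + 1) → ℕ),
          (a₀ : ℝ) ≤ (Real.log N) ^ B → (∀ i, (a i : ℝ) ≤ (Real.log N) ^ B) →
          ‖∑ n ∈ Icc 1 N, g (n + a₀) *
            (((∏ i, theta ⌊α i * x i (n + a i) + β i⌋₊ : ℝ) : ℂ) - 1)‖ ≤ N / (Real.log N) ^ K) := by
  refine ⟨fun k β => ?_, fun k x β hx g C B hg => ?_⟩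
  · have h := Pool.Agent.Q138.GS.ta_asym k β
    unfold Pool.Agent.Q138.GS.pm at h
    rw [ae_restrict_iff' (Pool.Agent.Q138.GS.pos_meas _)] at h
    filter_upwards [h] with α hα hpos B
    obtain ⟨C, hC0, hC⟩ := hα hpos B
    refine ⟨C, ?_⟩
    filter_upwards [hC, eventually_ge_atTop 3] with N hN hN3 a₀ a ha₀ ha
    have h1 := hN a₀ a ha₀ ha
    have e : Pool.Agent.Q138.GS.Ta k α β a₀ a N = count (tuples α β a₀ a) N := rfl
    rw [e] at h1
    have hN0 : (0 : ℝ) < N := by exact_mod_cast (by omega : 0 < N)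
    have hl : 0 < Real.log N := Real.log_pos (by exact_mod_cast (by omega : 1 < N))
    have e2 : count (tuples α β a₀ a) N * (Real.log N) ^ (k + 2) / N - 1 =
        (count (tuples α β a₀ a) N - N / (Real.log N) ^ (k + 2)) * ((Real.log N) ^ (k + 2) / N) := by
      field_simp
    rw [e2, abs_mul, abs_of_pos (show 0 < (Real.log N) ^ (k + 2) / (N : ℝ) by positivity)]
    calc _ ≤ C * (N / (Real.log N) ^ (k + 3)) * ((Real.log N) ^ (k + 2) / N) :=
          mul_le_mul_of_nonneg_right h1 (by positivity)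
      _ = _ := by
          rw [pow_succ (Real.log (N : ℝ)) (k + 2)]
          field_simp
  · choose c hc using fun i => (hx i).sm
    choose A' C1 hC1 hbd using fun i => (hc i).bd
    have h := Pool.Agent.Q138.GS.uni_sav k (fun _ => Pool.Agent.Q138.GS.th) (fun _ => Pool.Agent.Q138.GS.thw)
      (fun _ => 1) (fun _ n => Pool.Agent.Q138.GS.th_eq n) (fun _ n => Pool.Agent.Q138.GS.th_le n)
      x A' C1 hbd β (fun i => (hc i).un Pool.Agent.Q138.GS.thw Pool.Agent.Q138.GS.thw_le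
        Pool.Agent.Q138.GS.neg_thw (β i)) g C B hg
    unfold Pool.Agent.Q138.GS.pm at h
    rw [ae_restrict_iff' (Pool.Agent.Q138.GS.pos_meas _)] at h
    filter_upwards [h] with α hα hpos B' K
    filter_upwards [hα hpos B' K] with N hN a₀ a ha₀ ha
    have h1 := hN (a₀, a) (Pool.Agent.Q138.GS.mem_Hs.2 ⟨Nat.le_floor ha₀, fun i => Nat.le_floor (ha i)⟩)
    refine le_trans (le_of_eq ?_) h1
    congr 1
    refine sum_congr rfl fun n _ => ?_
    unfold Pool.Agent.Q138.GS.aT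
    rw [prod_const_one]
    push_cast
    simp only [theta_eq]

end Pool.Agent.Results.MP_8923e7_nt.UniformRealTuples
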